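import Pool.Agent.P8H15.RM.Stm
import Pool.Agent.Y122.LT.Cauchy

/-!
# RM, FT: Plancherel
-/

set_option autoImplicit false

namespace Pool.Agent.P8H15.RM

open Finset MeasureTheory Filter Topology
open scoped Classical
open Pool.Agent.Y122.LT (DS K S planch time S_tsum)

lemma pr_prime {N q : ℕ} (h : q ∈ pr N) : q.Prime := (mem_filter.1 h).2

lemma mem_pr {N q : ℕ} : q ∈ pr N ↔ q.Prime ∧ q ≤ N := by
  unfold pr
  rw [mem_filter, mem_Icc]
  constructor
  · rintro ⟨⟨-, h⟩, h'⟩; exact ⟨h', h⟩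
  · rintro ⟨h, h'⟩; exact ⟨⟨h.one_lt.le, h'⟩, h⟩

/-- the product of the primes up to `N` -/
def PP (N : ℕ) : ℕ := ∏ q ∈ pr N, q

lemma PP_ne (N : ℕ) : PP N ≠ 0 := Finset.prod_ne_zero_iff.2 fun _ h => (pr_prime h).ne_zero

lemma PP_sq (N : ℕ) : Squarefree (PP N) := by
  unfold PP
  apply Finset.squarefree_prod_of_pairwise_isCoprime
  · intro a ha b hb hab
    simp only [← Nat.coprime_iff_isRelPrime]
    exact (Nat.coprime_primes (pr_prime ha) (pr_prime hb)).mpr hab
  · intro q hq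
    exact (pr_prime hq).squarefree

lemma PP_pf (N : ℕ) : (PP N).primeFactors = pr N := Nat.primeFactors_prod fun _ h => pr_prime h

/-- the summand as an arithmetic function -/
noncomputable def fs (e : ℕ → ℝ) (s : ℂ) : ArithmeticFunction ℂ :=
  ⟨fun n => if n = 0 then 0 else (sg e n : ℂ) * (n : ℂ) ^ (-s), by simp⟩

lemma fs_apply (e : ℕ → ℝ) (s : ℂ) {n : ℕ} (hn : n ≠ 0) :
    fs e s n = (sg e n : ℂ) * (n : ℂ) ^ (-s) := by
  show (if n = 0 then 0 else (sg e n : ℂ) * (n : ℂ) ^ (-s)) = _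
  rw [if_neg hn]

lemma sg_mul (e : ℕ → ℝ) {m n : ℕ} (h : m.Coprime n) : sg e (m * n) = sg e m * sg e n := by
  unfold sg
  rw [h.primeFactors_mul, Finset.prod_union h.disjoint_primeFactors]

lemma fs_mult (e : ℕ → ℝ) (s : ℂ) : (fs e s).IsMultiplicative := by
  rw [ArithmeticFunction.IsMultiplicative.iff_ne_zero]
  refine ⟨by rw [fs_apply e s one_ne_zero]; simp [sg], fun {m n} hm hn h => ?_⟩
  rw [fs_apply e s (mul_ne_zero hm hn), fs_apply e s hm, fs_apply e s hn, sg_mul e h]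
  push_cast
  rw [Complex.natCast_mul_natCast_cpow]
  ring

/-- the Euler product -/
lemma euler (e : ℕ → ℝ) (N : ℕ) (s : ℂ) : ∏ q ∈ pr N, (1 - (e q : ℂ) * (q : ℂ) ^ (-s)) =
    ∑ d ∈ (PP N).divisors, ((ArithmeticFunction.moebius d : ℤ) : ℂ) * ((sg e d : ℂ) * (d : ℂ) ^ (-s)) := by
  have h := (fs_mult e s).prodPrimeFactors_one_sub_of_squarefree (fs e s) (PP_sq N)
  rw [PP_pf] at h
  rw [← Finset.prod_congr rfl (fun q hq => ?_), h]
  · refine Finset.sum_congr rfl fun d hd => ?_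
    rw [fs_apply e s (Nat.pos_of_mem_divisors hd).ne']
  · rw [fs_apply e s (pr_prime hq).ne_zero]
    unfold sg
    rw [(pr_prime hq).primeFactors, Finset.prod_singleton]

/-- the size of a factor -/
lemma fac_eq {e : ℕ → ℝ} (he : Sgn e) (δ t : ℝ) {q : ℕ} (hq : 0 < q) :
    ‖1 - (e q : ℂ) * (q : ℂ) ^ (-((1 / 2 + δ : ℝ) + (t : ℝ) * Complex.I : ℂ))‖ ^ 2 = fac δ t e q := by
  have hq0 : (0 : ℝ) < q := by exact_mod_cast hq
  have hqc : (q : ℂ) ≠ 0 := by exact_mod_cast hq.ne'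
  have he2 : e q ^ 2 = 1 := by rcases he q with h | h <;> rw [h] <;> norm_num
  have h1 : (q : ℂ) ^ (-((1 / 2 + δ : ℝ) + (t : ℝ) * Complex.I : ℂ)) =
      (((q : ℝ) ^ (-(1 / 2 + δ)) : ℝ) : ℂ) *
        ((Real.cos (t * Real.log q) : ℂ) - (Real.sin (t * Real.log q) : ℂ) * Complex.I) := by
    have h2 : (-((1 / 2 + δ : ℝ) + (t : ℝ) * Complex.I : ℂ)) =
        ((-(1 / 2 + δ) : ℝ) : ℂ) + ((-t : ℝ) : ℂ) * Complex.I := by
      push_cast; ring
    rw [h2, Complex.cpow_add _ _ hqc]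
    congr 1
    · rw [Complex.ofReal_cpow hq0.le]
      norm_cast
    · rw [Complex.cpow_def_of_ne_zero hqc, ← Complex.natCast_log]
      have h3 : ((Real.log q : ℝ) : ℂ) * (((-t : ℝ) : ℂ) * Complex.I) =
          ((-(t * Real.log q) : ℝ) : ℂ) * Complex.I := by
        push_cast; ring
      rw [h3, Complex.exp_mul_I, ← Complex.ofReal_cos, ← Complex.ofReal_sin, Real.cos_neg, Real.sin_neg]
      push_cast; ring
  have h4 : (q : ℝ) ^ (-(1 + 2 * δ)) = ((q : ℝ) ^ (-(1 / 2 + δ))) ^ 2 := by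
    rw [← Real.rpow_natCast, ← Real.rpow_mul hq0.le]
    congr 1
    push_cast; ring
  rw [h1, ← Complex.normSq_eq_norm_sq, Complex.normSq_apply]
  unfold fac
  rw [h4]
  simp only [Complex.sub_re, Complex.one_re, Complex.mul_re, Complex.ofReal_re, Complex.ofReal_im,
    Complex.sub_im, Complex.one_im, Complex.mul_im, Complex.I_re, Complex.I_im]
  have h5 := Real.sin_sq_add_cos_sq (t * Real.log q)
  set c := Real.cos (t * Real.log q)
  set z := Real.sin (t * Real.log q)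
  set r := (q : ℝ) ^ (-(1 / 2 + δ))
  have e2 : (1 - 2 * e q * r * c + r ^ 2) = 1 - 2 * e q * r * c + (e q ^ 2) * r ^ 2 * (z ^ 2 + c ^ 2) := by
    rw [he2, h5]; ring
  rw [e2]
  ring

/-- the coefficients -/
noncomputable def bb (e : ℕ → ℝ) (N : ℕ) (n : ℕ) : ℂ :=
  if n ∈ (PP N).divisors then ((ArithmeticFunction.moebius n : ℤ) : ℂ) * (sg e n : ℂ) else 0

lemma bb_zero (e : ℕ → ℝ) (N : ℕ) : bb e N 0 = 0 := by
  unfold bb
  rw [if_neg]
  intro h
  exact (Nat.pos_of_mem_divisors h).ne' rfl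

lemma bb_out (e : ℕ → ℝ) (N : ℕ) {n : ℕ} (h : n ∉ (PP N).divisors) : bb e N n = 0 := if_neg h

lemma ds_eq {e : ℕ → ℝ} (N : ℕ) (y : ℝ) :
    DS (fun n => bb e N n * (Real.exp (-((1 / 2) * Real.log n)) : ℂ)) y =
      ∏ q ∈ pr N, (1 - (e q : ℂ) * (q : ℂ) ^ (-((1 / 2 + 0 : ℝ) + (y : ℝ) * Complex.I : ℂ))) := by
  unfold DS
  rw [tsum_eq_sum (s := (PP N).divisors) (fun n hn => by simp only [bb_out e N hn, zero_mul]), euler]
  refine Finset.sum_congr rfl fun n hn => ?_
  have hn0 : 0 < n := Nat.pos_of_mem_divisors hn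
  have hnr : (0 : ℝ) < n := by exact_mod_cast hn0
  have hnc : (n : ℂ) ≠ 0 := by exact_mod_cast hn0.ne'
  simp only
  unfold bb
  rw [if_pos hn, mul_assoc, mul_assoc]
  congr 2
  rw [Complex.cpow_def_of_ne_zero hnc, ← Complex.natCast_log, Complex.ofReal_exp, ← Complex.exp_add]
  congr 1
  push_cast
  ring

lemma bb_sum {e : ℕ → ℝ} (N : ℕ) (σ : ℝ) :
    Summable fun n : ℕ => ‖bb e N n * (Real.exp (-(σ * Real.log n)) : ℂ)‖ :=
  summable_of_ne_finset_zero (s := (PP N).divisors) fun n hn => by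
    rw [bb_out e N hn]; simp

/-- Plancherel -/
lemma J_eq {e : ℕ → ℝ} (he : Sgn e) (N : ℕ) :
    J N e = ∫ t, ‖S (bb e N) t‖ ^ 2 * Real.exp (-t) := by
  have h := planch (bb_zero e N) (σ := 1 / 2) (by norm_num) (bb_sum N (1 / 2))
  have h1 : ∀ y : ℝ, ‖DS (fun n => bb e N n * (Real.exp (-((1 / 2) * Real.log n)) : ℂ)) y‖ ^ 2 *
      K (1 / 2) y = (1 / 2) * (D N e y / (1 / 4 + y ^ 2)) := by
    intro y
    rw [ds_eq, norm_prod, ← Finset.prod_pow]
    unfold D K
    rw [Finset.prod_congr rfl (fun q hq => fac_eq he 0 y (pr_prime hq).pos)]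
    norm_num
    ring
  simp_rw [h1] at h
  rw [integral_const_mul] at h
  unfold J
  have h2 : ∀ t : ℝ, Real.exp (-(2 * (1 / 2) * t)) = Real.exp (-t) := fun t => by congr 1; ring
  simp_rw [h2] at h
  have hpi := Real.pi_pos
  field_simp
  field_simp at h
  linarith

lemma S_int {e : ℕ → ℝ} (N : ℕ) : Integrable fun t => ‖S (bb e N) t‖ ^ 2 * Real.exp (-t) := by
  have h := (time (bb_zero e N) (σ := 1 / 2) (by norm_num) (bb_sum N (1 / 2))).1
  refine h.congr (Eventually.of_forall fun t => ?_)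
  simp only
  congr 2
  ring

lemma S_fin (e : ℕ → ℝ) (N : ℕ) (t : ℝ) : S (bb e N) t =
    ∑ n ∈ (PP N).divisors, (Set.Ici (Real.log n)).indicator (fun _ => bb e N n) t := by
  rw [(S_tsum (bb_zero e N) t).2, tsum_eq_sum (s := (PP N).divisors) (fun n hn => by
    rw [bb_out e N hn]; simp)]
  refine Finset.sum_congr rfl fun n _ => ?_
  rw [Set.indicator_apply]
  rfl

lemma exp_tail' {s : ℂ} (hs : 0 < s.re) (c : ℝ) :
    Integrable ((Set.Ici c).indicator fun t : ℝ => Complex.exp (-s * t)) ∧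
    ∫ t, (Set.Ici c).indicator (fun t : ℝ => Complex.exp (-s * t)) t = Complex.exp (-s * c) / s := by
  have hs' : (-s).re < 0 := by simpa using hs
  constructor
  · rw [integrable_indicator_iff measurableSet_Ici, integrableOn_Ici_iff_integrableOn_Ioi]
    exact integrableOn_exp_mul_complex_Ioi hs' c
  · rw [integral_indicator measurableSet_Ici, integral_Ici_eq_integral_Ioi,
      integral_exp_mul_complex_Ioi hs' c]
    rw [div_neg, neg_div, neg_neg]

/-- the Mellin transform of the partial sums -/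
lemma mellin {e : ℕ → ℝ} (N : ℕ) {s : ℂ} (hs : 0 < s.re) :
    Integrable (fun t : ℝ => S (bb e N) t * Complex.exp (-s * t)) ∧
    s * ∫ t : ℝ, S (bb e N) t * Complex.exp (-s * t) =
      ∏ q ∈ pr N, (1 - (e q : ℂ) * (q : ℂ) ^ (-s)) := by
  have hs0 : s ≠ 0 := by rintro rfl; simp at hs
  have h1 : (fun t : ℝ => S (bb e N) t * Complex.exp (-s * t)) = fun t => ∑ n ∈ (PP N).divisors,
      bb e N n * (Set.Ici (Real.log n)).indicator (fun t : ℝ => Complex.exp (-s * t)) t := by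
    funext t
    rw [S_fin, Finset.sum_mul]
    refine Finset.sum_congr rfl fun n _ => ?_
    by_cases h : t ∈ Set.Ici (Real.log (n : ℝ))
    · rw [Set.indicator_of_mem h, Set.indicator_of_mem h]
    · rw [Set.indicator_of_notMem h, Set.indicator_of_notMem h]; simp
  rw [h1]
  constructor
  · exact integrable_finsetSum _ fun n _ => (exp_tail' hs _).1.const_mul _
  · rw [integral_finsetSum _ fun n _ => (exp_tail' hs _).1.const_mul _, Finset.mul_sum, euler]
    refine Finset.sum_congr rfl fun n hn => ?_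
    have hn0 : 0 < n := Nat.pos_of_mem_divisors hn
    have hnc : (n : ℂ) ≠ 0 := by exact_mod_cast hn0.ne'
    rw [integral_const_mul, (exp_tail' hs _).2, Complex.cpow_def_of_ne_zero hnc, ← Complex.natCast_log]
    unfold bb
    rw [if_pos hn]
    field_simp

lemma S_meas (e : ℕ → ℝ) (N : ℕ) : Measurable (S (bb e N)) := by
  have h : S (bb e N) = fun t => ∑ n ∈ (PP N).divisors,
      (Set.Ici (Real.log n)).indicator (fun _ => bb e N n) t := funext (S_fin e N)
  rw [h]
  exact Finset.measurable_sum _ fun n _ => measurable_const.indicator measurableSet_Ici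

lemma S_neg (e : ℕ → ℝ) (N : ℕ) {t : ℝ} (ht : t < 0) : S (bb e N) t = 0 := by
  unfold S
  have : ⌊Real.exp t⌋₊ = 0 := Nat.floor_eq_zero.2 (by rw [← Real.exp_zero]; exact Real.exp_lt_exp.2 ht)
  rw [this]
  simp

theorem ftb {e : ℕ → ℝ} (he : Sgn e) (N : ℕ) (δ t : ℝ) (hδ : 0 < δ) :
    2 * δ * ∏ q ∈ pr N, fac δ t e q ≤ ((1 / 2 + δ) ^ 2 + t ^ 2) * J N e := by
  obtain ⟨s, hs⟩ : ∃ s : ℂ, s = ((1 / 2 + δ : ℝ) + (t : ℝ) * Complex.I : ℂ) := ⟨_, rfl⟩
  have hre : s.re = 1 / 2 + δ := by rw [hs]; simp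
  have him : s.im = t := by rw [hs]; simp
  have hre0 : 0 < s.re := by rw [hre]; linarith
  obtain ⟨hGi, hG⟩ := mellin (e := e) N hre0
  have hfac : ∏ q ∈ pr N, fac δ t e q = ‖∏ q ∈ pr N, (1 - (e q : ℂ) * (q : ℂ) ^ (-s))‖ ^ 2 := by
    rw [norm_prod, ← Finset.prod_pow]
    refine Finset.prod_congr rfl fun q hq => ?_
    rw [hs, fac_eq he δ t (pr_prime hq).pos]
  have hnorm : ‖s‖ ^ 2 = (1 / 2 + δ) ^ 2 + t ^ 2 := by
    rw [← Complex.normSq_eq_norm_sq, Complex.normSq_apply, hre, him]; ring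
  rw [hfac, ← hG, norm_mul, mul_pow, hnorm]
  -- Cauchy-Schwarz
  set f : ℝ → ℝ := fun t => ‖S (bb e N) t‖ * Real.exp (-(t / 2)) with hf
  set g : ℝ → ℝ := (Set.Ici (0 : ℝ)).indicator fun t => Real.exp (-(δ * t)) with hg
  have hfm : Measurable f := by
    rw [hf]
    exact (S_meas e N).norm.mul (by fun_prop)
  have hgm : Measurable g := by
    rw [hg]
    exact (by fun_prop : Measurable fun t : ℝ => Real.exp (-(δ * t))).indicator measurableSet_Ici
  have hf2 : ∀ t, f t ^ 2 = ‖S (bb e N) t‖ ^ 2 * Real.exp (-t) := by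
    intro t
    rw [hf]
    simp only
    rw [mul_pow, ← Real.exp_nat_mul]
    congr 2
    push_cast; ring
  have hf2i : Integrable fun t => f t ^ 2 := by
    simp_rw [hf2]; exact S_int N
  have hA : ∫ t, f t ^ 2 = J N e := by
    simp_rw [hf2]; rw [J_eq he]
  have hg2 : ∀ t, g t ^ 2 = (Set.Ici (0 : ℝ)).indicator (fun t => Real.exp (-(2 * δ) * t)) t := by
    intro t
    rw [hg]
    by_cases h : t ∈ Set.Ici (0 : ℝ)
    · rw [Set.indicator_of_mem h, Set.indicator_of_mem h, ← Real.exp_nat_mul]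
      congr 1
      push_cast; ring
    · rw [Set.indicator_of_notMem h, Set.indicator_of_notMem h]; norm_num
  have h2δ : -(2 * δ) < 0 := by linarith
  have hg2i : Integrable fun t => g t ^ 2 := by
    simp_rw [hg2]
    rw [integrable_indicator_iff measurableSet_Ici, integrableOn_Ici_iff_integrableOn_Ioi]
    exact integrableOn_exp_mul_Ioi h2δ 0
  have hB : ∫ t, g t ^ 2 = 1 / (2 * δ) := by
    simp_rw [hg2]
    rw [integral_indicator measurableSet_Ici, integral_Ici_eq_integral_Ioi,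
      integral_exp_mul_Ioi h2δ 0]
    simp
  have hfg : Integrable fun t => f t * g t := by
    refine (hf2i.add hg2i).mono' (hfm.mul hgm).aestronglyMeasurable
      (Eventually.of_forall fun t => ?_)
    rw [Real.norm_eq_abs, Pi.add_apply, abs_le]
    constructor <;> nlinarith [sq_nonneg (f t + g t), sq_nonneg (f t - g t)]
  have hCS : (∫ t, f t * g t) ^ 2 ≤ J N e * (1 / (2 * δ)) := by
    set C := ∫ t, f t * g t
    set B := 1 / (2 * δ) with hBd
    have hB0 : 0 < B := by rw [hBd]; positivity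
    have h1 : 0 ≤ ∫ t, (B * f t - C * g t) ^ 2 := integral_nonneg fun t => sq_nonneg _
    have h2 : ∫ t, (B * f t - C * g t) ^ 2 = B ^ 2 * J N e - 2 * B * C * C + C ^ 2 * B := by
      have e1 : (fun t => (B * f t - C * g t) ^ 2) = fun t =>
          (B ^ 2 * f t ^ 2 - 2 * B * C * (f t * g t)) + C ^ 2 * g t ^ 2 := by
        funext t; ring
      have i1 : Integrable fun t => B ^ 2 * f t ^ 2 := hf2i.const_mul _
      have i2 : Integrable fun t => 2 * B * C * (f t * g t) := hfg.const_mul _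
      have i3 : Integrable fun t => C ^ 2 * g t ^ 2 := hg2i.const_mul _
      have i4 : Integrable fun t => B ^ 2 * f t ^ 2 - 2 * B * C * (f t * g t) := i1.sub i2
      rw [e1, integral_add i4 i3, integral_sub i1 i2, integral_const_mul, integral_const_mul,
        integral_const_mul, hA, hB]
    rw [h2] at h1
    have h3 : 0 ≤ B * (J N e * B - C ^ 2) := by nlinarith
    have h4 := nonneg_of_mul_nonneg_right h3 hB0
    linarith
  have hle : ‖∫ t : ℝ, S (bb e N) t * Complex.exp (-s * t)‖ ≤ ∫ t, f t * g t := by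
    refine norm_integral_le_of_norm_le hfg (Eventually.of_forall fun t => ?_)
    by_cases h : t < 0
    · rw [S_neg e N h, zero_mul, norm_zero]
      rw [hf, hg]
      exact mul_nonneg (by positivity) (Set.indicator_nonneg (fun _ _ => (Real.exp_pos _).le) _)
    · rw [norm_mul, Complex.norm_exp]
      rw [hf, hg]
      simp only
      rw [Set.indicator_of_mem (by simpa using h), mul_assoc, ← Real.exp_add]
      have e2 : (-s * (t : ℂ)).re = -(t / 2) + -(δ * t) := by
        rw [Complex.mul_re, Complex.neg_re, Complex.ofReal_re, Complex.ofReal_im, hre]; ring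
      rw [e2]
  have hle2 : ‖∫ t : ℝ, S (bb e N) t * Complex.exp (-s * t)‖ ^ 2 ≤ J N e * (1 / (2 * δ)) :=
    (pow_le_pow_left₀ (norm_nonneg _) hle 2).trans hCS
  have h5 : 0 ≤ (1 / 2 + δ) ^ 2 + t ^ 2 := by positivity
  calc 2 * δ * (((1 / 2 + δ) ^ 2 + t ^ 2) * ‖∫ t : ℝ, S (bb e N) t * Complex.exp (-s * t)‖ ^ 2)
      = ((1 / 2 + δ) ^ 2 + t ^ 2) * (2 * δ * ‖∫ t : ℝ, S (bb e N) t * Complex.exp (-s * t)‖ ^ 2) := by
        ring
    _ ≤ ((1 / 2 + δ) ^ 2 + t ^ 2) * J N e := by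
        refine mul_le_mul_of_nonneg_left ?_ h5
        calc 2 * δ * ‖∫ t : ℝ, S (bb e N) t * Complex.exp (-s * t)‖ ^ 2 ≤
            2 * δ * (J N e * (1 / (2 * δ))) := mul_le_mul_of_nonneg_left hle2 (by positivity)
          _ = J N e := by field_simp

lemma sqf_dvd {N n : ℕ} (hn : n ≤ N) (hs : Squarefree n) : n ∈ (PP N).divisors := by
  rw [Nat.mem_divisors]
  refine ⟨?_, PP_ne N⟩
  rw [← Nat.prod_primeFactors_of_squarefree hs]
  unfold PP
  refine Finset.prod_dvd_prod_of_subset _ _ _ fun q hq => ?_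
  rw [mem_pr]
  exact ⟨Nat.prime_of_mem_primeFactors hq, (Nat.le_of_mem_primeFactors hq).trans hn⟩

lemma S_eq_M {e : ℕ → ℝ} {N : ℕ} {t : ℝ} (ht : Real.exp t < N + 1) :
    S (bb e N) t = (M e (Real.exp t) : ℂ) := by
  unfold S M
  rw [Complex.ofReal_sum]
  refine Finset.sum_congr rfl fun n hn => ?_
  rw [mem_Icc] at hn
  have h1 : n ≤ N := by
    have h2 : (n : ℝ) ≤ Real.exp t := (Nat.le_floor_iff (Real.exp_pos t).le).1 hn.2
    have h3 : (n : ℝ) < (N + 1 : ℕ) := by push_cast; linarith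
    have h4 : n < N + 1 := by exact_mod_cast h3
    omega
  unfold bb
  by_cases hd : n ∈ (PP N).divisors
  · rw [if_pos hd]; push_cast; rfl
  · rw [if_neg hd]
    have h5 : ¬ Squarefree n := fun h => hd (sqf_dvd h1 h)
    rw [ArithmeticFunction.moebius_eq_zero_of_not_squarefree h5]
    simp

theorem fta {e : ℕ → ℝ} (he : Sgn e) (N : ℕ) (x : ℝ) (hx : 1 ≤ x) (hxN : x < N + 1) :
    ∫ u in (1 : ℝ)..x, (M e u / u) ^ 2 ≤ J N e := by
  have himg : Real.exp '' Set.Ioc 0 (Real.log x) = Set.Ioc 1 x := by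
    ext u
    constructor
    · rintro ⟨t, ⟨h1, h2⟩, rfl⟩
      refine ⟨by simpa using h1, ?_⟩
      rw [← Real.exp_log (show (0 : ℝ) < x by linarith)]
      exact Real.exp_le_exp.2 h2
    · rintro ⟨h1, h2⟩
      refine ⟨Real.log u, ⟨Real.log_pos h1, Real.log_le_log (by linarith) h2⟩, ?_⟩
      exact Real.exp_log (by linarith)
  rw [intervalIntegral.integral_of_le hx, ← himg,
    integral_image_eq_integral_abs_deriv_smul measurableSet_Ioc
      (fun t _ => (Real.hasDerivAt_exp t).hasDerivWithinAt) Real.exp_injective.injOn, J_eq he]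
  have h1 : ∫ t in Set.Ioc 0 (Real.log x), |Real.exp t| • (M e (Real.exp t) / Real.exp t) ^ 2 =
      ∫ t in Set.Ioc 0 (Real.log x), ‖S (bb e N) t‖ ^ 2 * Real.exp (-t) := by
    refine setIntegral_congr_fun measurableSet_Ioc fun t ht => ?_
    have h2 : Real.exp t < N + 1 := by
      refine lt_of_le_of_lt ?_ hxN
      rw [← Real.exp_log (show (0 : ℝ) < x by linarith)]
      exact Real.exp_le_exp.2 ht.2
    rw [S_eq_M h2, Complex.norm_real, Real.norm_eq_abs, sq_abs, abs_of_pos (Real.exp_pos t),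
      Real.exp_neg, smul_eq_mul]
    have h3 := (Real.exp_pos t).ne'
    field_simp
  rw [h1]
  exact setIntegral_le_integral (S_int N) (Eventually.of_forall fun t => by positivity)

theorem ft : S_FT := fun _ he N => ⟨fun x hx hxN => fta he N x hx hxN, fun δ t hδ => ftb he N δ t hδ⟩

end Pool.Agent.P8H15.RM
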