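import Pool.Agent.P8H15.RM.Stm
import Pool.Agent.Y835.SB.Mert

/-!
# RM, RR: Mertens
-/

set_option autoImplicit false

namespace Pool.Agent.P8H15.RM

open Finset

theorem rr : S_RR := by
  obtain ⟨C, hC0, hC⟩ := Pool.Agent.Y835.SB.sum_inv_le
  refine ⟨Real.exp C, Real.exp_pos C, fun N hN => ?_⟩
  have h1 := hC N hN (pr N) (fun p hp => by
    unfold pr at hp
    rw [mem_filter, mem_Icc] at hp
    exact ⟨hp.2, hp.1.2⟩)
  have hN1 : (1 : ℝ) < N := by exact_mod_cast (by omega : 1 < N)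
  have hl : 0 < Real.log N := Real.log_pos hN1
  unfold R
  calc ∏ q ∈ pr N, (1 + 1 / (q : ℝ)) ≤ ∏ q ∈ pr N, Real.exp (1 / (q : ℝ)) := by
        refine Finset.prod_le_prod (fun q _ => by positivity) fun q _ => ?_
        rw [add_comm]
        exact Real.add_one_le_exp _
    _ = Real.exp (∑ q ∈ pr N, 1 / (q : ℝ)) := (Real.exp_sum _ _).symm
    _ ≤ Real.exp (Real.log (Real.log N) + C) := Real.exp_le_exp.2 h1
    _ = Real.exp C * Real.log N := by
        rw [Real.exp_add, Real.exp_log hl, mul_comm]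

end Pool.Agent.P8H15.RM
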