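import Mathlib

/-!
# Project RM: the weak Mertens hypothesis for almost all sign twists of the Moebius function

Target (row MP_323ce2_nt).  Let `s q` (`q` prime) be independent fair signs, `f(n) = ∏_{q ∣ n} s q` and
`M(u) = ∑_{n ≤ u} μ(n) f(n)`.  Almost surely `∫_1^x (M(u)/u)² du = o(log x)`; in particular the weak Mertens
hypothesis holds for almost all sign twists of `μ`.

Plan.  `D N e t = ∏_{q ≤ N} |1 - e_q q^(-1/2-it)|²`, `R N = ∏_{q ≤ N} (1 + 1/q)` (the mean of `D`),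
`J N e = (1/2π) ∫ D N e t / (1/4 + t²) dt`, which by Plancherel is `∫_1^∞ (M_N(u)/u)² du`, `M_N` the sum over the
integers whose prime factors are at most `N`.  `W_N = J N / R N` is a nonnegative martingale, and
`∫_1^x (M(u)/u)² du ≤ J N = W_N R N ≤ C W_N log x`.  It remains to show `W_N → 0` almost surely (critical
multiplicative chaos).  For this we tilt the measure by `D N e t / R N` for a fixed `t ≠ 0`: under the tilted
measure the signs are still independent and `W_N` is unbounded by the fluctuations of `log |Euler product|²` at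
`1/2 + 1 / log N + i t`, where `W_N ≥ c |Euler product|² / (log N)²`.

The theorems to be proved are the `S_...` below. Deliver `theorem xx : S_XX` (with the earlier parts as explicit
hypotheses if they are used).
-/

set_option autoImplicit false

namespace Pool.Agent.P8H15.RM

open Finset MeasureTheory ProbabilityTheory Filter Topology
open scoped Classical

/-- the sign of an integer: the product of the signs of its prime factors -/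
noncomputable def sg (e : ℕ → ℝ) (n : ℕ) : ℝ := ∏ q ∈ n.primeFactors, e q

/-- `∑_{n ≤ u} μ(n) f(n)` -/
noncomputable def M (e : ℕ → ℝ) (u : ℝ) : ℝ :=
  ∑ n ∈ Icc 1 ⌊u⌋₊, ((ArithmeticFunction.moebius n : ℤ) : ℝ) * sg e n

/-- the primes up to `N` -/
def pr (N : ℕ) : Finset ℕ := (Icc 1 N).filter Nat.Prime

/-- the primes in `(N', N]` -/
def blk (N' N : ℕ) : Finset ℕ := (Ioc N' N).filter Nat.Prime

/-- `|1 - e_q q^(-1/2-δ-it)|²` for signs `e_q` -/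
noncomputable def fac (δ t : ℝ) (e : ℕ → ℝ) (q : ℕ) : ℝ :=
  1 - 2 * e q * (q : ℝ) ^ (-(1 / 2 + δ)) * Real.cos (t * Real.log q) + (q : ℝ) ^ (-(1 + 2 * δ))

noncomputable def D (N : ℕ) (e : ℕ → ℝ) (t : ℝ) : ℝ := ∏ q ∈ pr N, fac 0 t e q

noncomputable def R (N : ℕ) : ℝ := ∏ q ∈ pr N, (1 + 1 / (q : ℝ))

noncomputable def J (N : ℕ) (e : ℕ → ℝ) : ℝ :=
  1 / (2 * Real.pi) * ∫ t : ℝ, D N e t / (1 / 4 + t ^ 2)

/-- all quotients up to `N` are at most `K` -/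
def Low (K : ℝ) (N : ℕ) (e : ℕ → ℝ) : Prop := ∀ j ≤ N, J j e ≤ K * R j

/-- signs -/
def Sgn (e : ℕ → ℝ) : Prop := ∀ q, e q = 1 ∨ e q = -1

/-- independent fair signs -/
structure Fair {Ω : Type} [MeasurableSpace Ω] (P : Measure Ω) (s : ℕ → Ω → ℝ) : Prop where
  meas : ∀ q, Measurable (s q)
  ind : iIndepFun s P
  sgn : ∀ q ω, s q ω = 1 ∨ s q ω = -1
  one : ∀ q, P {ω | s q ω = 1} = 1 / 2
  neg : ∀ q, P {ω | s q ω = -1} = 1 / 2

/-- the tilt at `q`: `fac 0 t e q = (1 + 1/q) (1 + tl t q * e q)` -/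
noncomputable def tl (t : ℝ) (q : ℕ) : ℝ :=
  -(2 * (q : ℝ) ^ (-(1 / 2 : ℝ)) * Real.cos (t * Real.log q)) / (1 + 1 / (q : ℝ))

/-- the coefficients of the linear form -/
noncomputable def cf (δ t : ℝ) (q : ℕ) : ℝ := -(2 * (q : ℝ) ^ (-(1 / 2 + δ)) * Real.cos (t * Real.log q))

/-- FT (helper15 does it): Plancherel. -/
def S_FT : Prop := ∀ e : ℕ → ℝ, Sgn e → ∀ N : ℕ,
  (∀ x : ℝ, 1 ≤ x → x < N + 1 → ∫ u in (1 : ℝ)..x, (M e u / u) ^ 2 ≤ J N e) ∧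
  (∀ δ t : ℝ, 0 < δ → 2 * δ * ∏ q ∈ pr N, fac δ t e q ≤ ((1 / 2 + δ) ^ 2 + t ^ 2) * J N e)

/-- RR (helper15 does it): Mertens. -/
def S_RR : Prop := ∃ C : ℝ, 0 < C ∧ ∀ N : ℕ, 2 ≤ N → R N ≤ C * Real.log N

/-- PZ: anti-concentration under a product tilt (only elementary probability).
PROOF.  Write `E φ = ∫ ∏_{q ∈ S} (1 + m_q s_q) φ`.  This is the expectation for independent signs with means
`m_q`. Put `Z = ∑ a_q (s_q - m_q)`, `V = ∑ a_q²`. By induction over `S` (independence) `E 1 = 1`, `E Z = 0`,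
`E Z² = ∑ a_q² (1 - m_q²) ∈ [3V/4, V]`, `E Z⁴ ≤ 3 V² + (7/4) ∑ a_q⁴ ≤ 5 V²` (as
`E (s - m)⁴ = (1 - m²)(1 + 3 m²) ≤ 7/4`, `|a_q| ≤ 1 ≤ V`).  Since `|z| ≥ (3/2) z²/b - (1/2) z⁴/b³` for `b > 0`
(`y - (3/2) y² + (1/2) y⁴ = y (y-1)² (y+2) / 2 ≥ 0`), with `b² = (20/3) V` we get `E |Z| ≥ 0.28 √V`, so
`E Z⁺ ≥ 0.14 √V` (as `E Z = 0`).  With `θ = 1/16`:
`E Z⁺ ≤ θ √V + E (Z 1_{Z ≥ θ√V}) ≤ θ √V + √V (E 1_{Z ≥ θ√V})^(1/2)` (Cauchy-Schwarz), so
`E 1_{Z ≥ θ√V} ≥ (0.14 - 0.0625)² > 1/200`. -/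
def S_PZ : Prop := ∀ (Ω : Type) [MeasurableSpace Ω] (P : Measure Ω) [IsProbabilityMeasure P]
  (s : ℕ → Ω → ℝ), Fair P s → ∀ (S : Finset ℕ) (a m : ℕ → ℝ), (∀ q ∈ S, |a q| ≤ 1) →
  (∀ q ∈ S, |m q| ≤ 1 / 2) → 1 ≤ ∑ q ∈ S, a q ^ 2 →
  1 / 200 ≤ ∫ ω, (∏ q ∈ S, (1 + m q * s q ω)) *
    (if √(∑ q ∈ S, a q ^ 2) / 16 ≤ ∑ q ∈ S, a q * (s q ω - m q) then (1 : ℝ) else 0) ∂P

/-- ZT: sums over primes with a twist.
PROOF. The tail: `∑_{q > N} q^(-1-δ) ≤ C` for `δ ≥ 1 / log N` (Chebyshev / partial summation, or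
`∑_{q > N} q^(-1-δ) ≤ ∑_k ∑_{N^k < q ≤ N^(k+1)} 1/q · e^(-k) ≤ C`, Mertens). The full sum:
`∑_q q^(-1-δ) cos(2t log q) = Re log ζ(1+δ+2it) + O(1) = log |ζ(1+δ+2it)| + O(1)`, and `ζ(1+δ+2it)` for `0 ≤ δ ≤ 3`
is continuous and has no zeros (Mathlib: `riemannZeta_ne_zero_of_one_le_re`), `t ≠ 0`. And
`∑_{q ≤ N} q^(-1-δ) ≥ ∑_{q ≤ N} 1/q - ∑_{q ≤ N} δ log q / q ≥ log log N - C` (Mertens;
`q^(-δ) ≥ 1 - δ log q`). The library has Mertens' theorems (grep the index) and probably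
`∑_p p^(-s) = log ζ + O(1)`. -/
def S_ZT : Prop := ∀ t : ℝ, t ≠ 0 → ∃ C : ℝ, ∀ N : ℕ, 2 ≤ N → ∀ δ : ℝ, 1 / Real.log N ≤ δ →
  δ ≤ 2 / Real.log N →
  |∑ q ∈ pr N, (q : ℝ) ^ (-(1 + δ)) * Real.cos (2 * t * Real.log q)| ≤ C ∧
  Real.log (Real.log N) - C ≤ ∑ q ∈ pr N, (q : ℝ) ^ (-(1 + δ))

/-- LG: (elementary inequalities; uses FT, ZT, RR as hypotheses).  For every `K` and `N' ≥ 16` there is `N > N'` such
that with `δ = 1 / log N`: if `J N e ≤ K R N` then the linear form `∑_{N' < q ≤ N} a_q (e_q - m_q)`,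
`a_q = cf δ t q`, `m_q = tl t q`, is less than `√V / 16`; and `V ≥ 1`.
PROOF. FT (second part) and RR: `∏_{q ≤ N} fac δ t e q ≤ C_{K,t} (log N)²`. Take logarithms:
`∑_{q ≤ N} log (fac δ t e q) ≤ 2 log log N + C`. For `q ≤ N'`: `fac ≥ (1 - q^(-1/2))² > 0`, these terms are bounded
below by a constant depending on `N'`. For `q > N' ≥ 16`: `log (1 + y) ≥ y - y²/2 - C |y|³`, `|y| ≤ 3 q^(-1/2)`,
`y = e_q a_q + q^(-1-2δ)`, gives `log fac ≥ e_q a_q + q^(-1-2δ) - a_q²/2 - C q^(-3/2)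
= e_q a_q - q^(-1-2δ) cos(2 t log q) - C q^(-3/2)` (as `a_q²/2 = 2 q^(-1-2δ) cos² = q^(-1-2δ) (1 + cos 2..)`).
And `e_q a_q = a_q (e_q - m_q) + a_q m_q`, `a_q m_q = 4 q^(-1-δ) cos²(t log q) / (1 + 1/q)
≥ 2 q^(-1-δ) (1 + cos(2 t log q)) - 4 q^(-2)`. Sum up with ZT (for `δ` and `2 δ`): 
`2 log log N + C ≥ ∑ a_q (e_q - m_q) + 2 log log N - C'(N', t)`, so the linear form is at most `C''(K, N', t)`.
Finally `V = ∑ a_q² = 2 ∑_{N' < q ≤ N} q^(-1-2δ) (1 + cos (2 t log q)) ≥ 2 log log N - C(N', t) → ∞` (ZT), so for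
large `N` we have `√V / 16 > C''` and `V ≥ 1`. `|m_q| ≤ 2 √q / (q + 1) ≤ 1/2` for `q ≥ 17`, `|a_q| ≤ 2/√q ≤ 1`. -/
def S_LG : Prop := ∀ t : ℝ, t ≠ 0 → ∀ (K : ℝ) (N' : ℕ), 16 ≤ N' → ∃ N : ℕ, N' < N ∧
  1 ≤ ∑ q ∈ blk N' N, cf (1 / Real.log N) t q ^ 2 ∧
  (∀ q ∈ blk N' N, |cf (1 / Real.log N) t q| ≤ 1 ∧ |tl t q| ≤ 1 / 2) ∧
  ∀ e : ℕ → ℝ, Sgn e → J N e ≤ K * R N →
    ∑ q ∈ blk N' N, cf (1 / Real.log N) t q * (e q - tl t q) <
      √(∑ q ∈ blk N' N, cf (1 / Real.log N) t q ^ 2) / 16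

/-- IND: independence. For `N' ≤ N`, for a set `A` of sign sequences which depends only on the signs `e_q`,
`q ≤ N'`, and a set `B` which depends only on the signs `e_q`, `q ∈ blk N' N`:
`∫ (D N / R N) 1_A 1_B = ∫ (D N' / R N') 1_A · ∫ ∏_{q ∈ blk N' N} (1 + tl t q s_q) 1_B`, and
`∫ ∏_{q ∈ blk N' N} (1 + tl t q s_q) = 1`. (`fac 0 t e q = (1 + 1/q) (1 + tl t q e_q)`; `D` is a product over the
primes; `iIndepFun.indepFun_finset` and `IndepFun.integral_mul_eq_mul_integral`. Measurability is no problem: everything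
is a function of finitely many signs.) -/
def S_IND : Prop := ∀ (Ω : Type) [MeasurableSpace Ω] (P : Measure Ω) [IsProbabilityMeasure P]
  (s : ℕ → Ω → ℝ), Fair P s → ∀ (t : ℝ) (N' N : ℕ), N' ≤ N → ∀ A B : (ℕ → ℝ) → Prop,
  (∀ e e' : ℕ → ℝ, (∀ q ∈ pr N', e q = e' q) → (A e ↔ A e')) →
  (∀ e e' : ℕ → ℝ, (∀ q ∈ blk N' N, e q = e' q) → (B e ↔ B e')) →
  ∫ ω, D N (fun q => s q ω) t / R N * (if A (fun q => s q ω) ∧ B (fun q => s q ω) then (1 : ℝ) else 0) ∂P =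
    (∫ ω, D N' (fun q => s q ω) t / R N' * (if A (fun q => s q ω) then (1 : ℝ) else 0) ∂P) *
    ∫ ω, (∏ q ∈ blk N' N, (1 + tl t q * s q ω)) * (if B (fun q => s q ω) then (1 : ℝ) else 0) ∂P ∧
  ∫ ω, (∏ q ∈ blk N' N, (1 + tl t q * s q ω)) ∂P = 1

/-- TO (uses PZ, LG, IND as hypotheses): `∫ W_N 1_{Low K N} → 0`.
PROOF. For `t ≠ 0` let `g_N(t) = ∫ (D N / R N) 1_{Low K N}`. By IND (`A = Low K N'`, `B = True`; note that `Low K N'`
depends only on the signs up to `N'`) `g_N(t)` is nonincreasing in `N` and `≤ 1`. By LG and PZ for every `N' ≥ 16`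
there is `N > N'` with `g_N(t) ≤ (1 - 1/200) g_{N'}(t)`: `Low K N` implies `Low K N'` and
`B = {linear form < √V / 16}`, and `∫ ∏ (1 + m s) 1_B = 1 - ∫ ∏ (1 + m s) 1_{not B} ≤ 1 - 1/200`. So `g_N(t) → 0`.
Fubini (bounded continuous functions): `∫ (J N / R N) 1_{Low K N} = (1/2π) ∫ g_N(t) / (1/4 + t²) dt`, and this
tends to `0` by dominated convergence. -/
def S_TO : Prop := ∀ (Ω : Type) [MeasurableSpace Ω] (P : Measure Ω) [IsProbabilityMeasure P]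
  (s : ℕ → Ω → ℝ), Fair P s → ∀ K : ℝ,
  Tendsto (fun N => ∫ ω, J N (fun q => s q ω) / R N *
    (if Low K N (fun q => s q ω) then (1 : ℝ) else 0) ∂P) atTop (𝓝 0)

/-- MG: the martingale. `W_N = J N / R N` converges almost surely (nonnegative martingale with mean one), and if
`∫ W_N 1_{Low K N} → 0` for all `K` then `W_N → 0` almost surely.
PROOF. `D (N+1) e t = D N e t * fac 0 t e (N+1)` if `N+1` is prime and `D N e t` otherwise, so
`J (N+1) e = (1 + 1/q) J N e - e_q X_N(e)` with `q = N + 1`, `X_N` bounded and a function of the signs up to `N`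
(`J 0 e = 1`: `∫ dt / (1/4 + t²) = 2π`). Filtration: `Filtration.natural s`. Bounded functions, so all are
integrable; `μ[s_q X_N | ℱ_N] = X_N μ[s_q] = 0`. Convergence: `Submartingale.ae_tendsto_limitProcess` (for the
martingale `W`, L1-bounded by its mean `1`; or for `-W`). Let `W_∞` be the limit; on `{∀ N, W_N ≤ K}` Fatou's
lemma for `W_N 1_{Low K N}` gives `∫ W_∞ 1 ≤ 0`. Every convergent sequence is bounded, so the union over natural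
`K` is everything. -/
def S_MG : Prop := ∀ (Ω : Type) [MeasurableSpace Ω] (P : Measure Ω) [IsProbabilityMeasure P]
  (s : ℕ → Ω → ℝ), Fair P s →
  (∀ K : ℝ, Tendsto (fun N => ∫ ω, J N (fun q => s q ω) / R N *
    (if Low K N (fun q => s q ω) then (1 : ℝ) else 0) ∂P) atTop (𝓝 0)) →
  ∀ᵐ ω ∂P, Tendsto (fun N => J N (fun q => s q ω) / R N) atTop (𝓝 0)

end Pool.Agent.P8H15.RM
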